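import Mathlib
import Pool.Agent.H671R2.PolyAuto

set_option autoImplicit false

/-!
# Coalition-exchange-stable matchings: definitions and general facts
-/

namespace Pool.Agent.X130.CES

/-- `x` comes before `y` in the preference list `l` -/
def Pref (l : List ℕ) (x y : ℕ) : Prop := l.idxOf x < l.idxOf y

/-- An instance of the stable marriage problem: `I.1` are the lists of the men `0, …, n - 1` and
`I.2` the lists of the women `0, …, n - 1`; every list ranks all agents of the opposite sex. -/
def IsSM (I : List (List ℕ) × List (List ℕ)) : Prop :=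
  I.2.length = I.1.length ∧ (∀ l ∈ I.1, List.Perm l (List.range I.1.length)) ∧
    ∀ l ∈ I.2, List.Perm l (List.range I.1.length)

/-- the man `a` strictly prefers the partner of `b` to his own partner in the matching `M` -/
def menEnvy (I : List (List ℕ) × List (List ℕ)) {n : ℕ} (M : Equiv.Perm (Fin n)) (a b : Fin n) :
    Prop := Pref (I.1.getD a []) (M b) (M a)

/-- the woman `a` strictly prefers the partner of `b` to her own partner in the matching `M` -/
def womenEnvy (I : List (List ℕ) × List (List ℕ)) {n : ℕ} (M : Equiv.Perm (Fin n)) (a b : Fin n) :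
    Prop := Pref (I.2.getD a []) (M.symm b) (M.symm a)

/-- `l` is a sequence of at least two distinct agents each of which envies the next one
(cyclically). -/
def Blocking {α : Type} (envy : α → α → Prop) (l : List α) : Prop :=
  2 ≤ l.length ∧ l.Nodup ∧ ∀ (i : ℕ) (a b : α), l[i]? = some a →
    l[(i + 1) % l.length]? = some b → envy a b

/-- The perfect matching `M` (man `i` is matched with woman `M i`) is coalition-exchange-stable. -/
def CES (I : List (List ℕ) × List (List ℕ)) {n : ℕ} (M : Equiv.Perm (Fin n)) : Prop :=
  (∀ c, ¬ Blocking (menEnvy I M) c) ∧ ∀ c, ¬ Blocking (womenEnvy I M) c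

/-- The decision problem: does the instance have a coalition-exchange-stable matching? -/
def HasCES (I : List (List ℕ) × List (List ℕ)) : Prop :=
  IsSM I ∧ ∃ M : Equiv.Perm (Fin I.1.length), CES I M

theorem exists_ces_iff {I : List (List ℕ) × List (List ℕ)} {n : ℕ} (h : I.1.length = n) :
    (∃ M : Equiv.Perm (Fin I.1.length), CES I M) ↔ ∃ M : Equiv.Perm (Fin n), CES I M := by
  subst h
  rfl

/-! ### Cycles -/

theorem blocking2 {α : Type} {R : α → α → Prop} {a b : α} (hab : a ≠ b) (h1 : R a b) (h2 : R b a) :
    Blocking R [a, b] := by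
  refine ⟨by simp, by simp [hab], ?_⟩
  intro i x y hx hy
  have hi : i < 2 := by
    by_contra hcon
    rw [List.getElem?_eq_none (by simp only [List.length_cons, List.length_nil]; omega)] at hx
    exact absurd hx (by simp)
  have h : i = 0 ∨ i = 1 := by omega
  rcases h with rfl | rfl
  · simp at hx hy
    subst hx hy
    exact h1
  · simp at hx hy
    subst hx hy
    exact h2

theorem blocking3 {α : Type} {R : α → α → Prop} {a b c : α} (hab : a ≠ b) (hac : a ≠ c)
    (hbc : b ≠ c) (h1 : R a b) (h2 : R b c) (h3 : R c a) : Blocking R [a, b, c] := by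
  refine ⟨by simp, by simp [hab, hac, hbc], ?_⟩
  intro i x y hx hy
  have hi : i < 3 := by
    by_contra hcon
    rw [List.getElem?_eq_none (by simp only [List.length_cons, List.length_nil]; omega)] at hx
    exact absurd hx (by simp)
  have h : i = 0 ∨ i = 1 ∨ i = 2 := by omega
  rcases h with rfl | rfl | rfl
  · simp at hx hy
    subst hx hy
    exact h1
  · simp at hx hy
    subst hx hy
    exact h2
  · simp at hx hy
    subst hx hy
    exact h3

theorem exists_sink {α : Type} [Finite α] {R : α → α → Prop} (hirr : ∀ a, ¬ R a a)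
    (h : ∀ c, ¬ Blocking R c) {C : Set α} (hC : C.Nonempty) : ∃ x ∈ C, ∀ y ∈ C, ¬ R x y := by
  by_contra hcon
  push Not at hcon
  obtain ⟨x₀, hx₀⟩ := hC
  have hf : ∀ x : C, ∃ y : C, R x y := fun x => by
    obtain ⟨y, hy, hR⟩ := hcon x x.2
    exact ⟨⟨y, hy⟩, hR⟩
  choose f hf using hf
  obtain ⟨i, j, hij, he⟩ := Finite.exists_ne_map_eq_of_infinite
    (fun k : ℕ => f^[k] (⟨x₀, hx₀⟩ : C))
  wlog hlt : i < j generalizing i j
  · exact this j i hij.symm he.symm (by omega)
  have hper : Function.IsPeriodicPt f (j - i) (f^[i] (⟨x₀, hx₀⟩ : C)) := by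
    unfold Function.IsPeriodicPt Function.IsFixedPt
    rw [← Function.iterate_add_apply, show j - i + i = j by omega]
    exact he.symm
  generalize f^[i] (⟨x₀, hx₀⟩ : C) = y at hper
  have hp : 0 < Function.minimalPeriod f y := hper.minimalPeriod_pos (by omega)
  have hR : ∀ z : C, R z (f z) := hf
  have hp2 : 2 ≤ Function.minimalPeriod f y := by
    by_contra hlt2
    have h1 : Function.minimalPeriod f y = 1 := by omega
    rw [Function.minimalPeriod_eq_one_iff_isFixedPt] at h1
    have h2 := hR y
    rw [h1] at h2
    exact hirr _ h2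
  refine h ((List.range (Function.minimalPeriod f y)).map (fun k => ((f^[k] y : C) : α)))
    ⟨by simpa using hp2, ?_, ?_⟩
  · rw [List.nodup_map_iff_inj_on List.nodup_range]
    intro a ha b hb hab
    rw [List.mem_range] at ha hb
    exact Function.iterate_injOn_Iio_minimalPeriod ha hb (Subtype.ext hab)
  · intro i a b ha hb
    have hi : i < Function.minimalPeriod f y := by
      by_contra hcon
      rw [List.getElem?_eq_none (by simpa using hcon)] at ha
      exact absurd ha (by simp)
    rw [List.length_map, List.length_range] at hb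
    have hi' : (i + 1) % Function.minimalPeriod f y < Function.minimalPeriod f y :=
      Nat.mod_lt _ hp
    rw [List.getElem?_map, List.getElem?_range hi] at ha
    rw [List.getElem?_map, List.getElem?_range hi', ] at hb
    simp only [Option.map_some, Option.some.injEq] at ha hb
    rw [Function.iterate_mod_minimalPeriod_eq, Function.iterate_succ_apply'] at hb
    subst ha hb
    exact hR _

theorem no_blocking_of_rank {α : Type} {R : α → α → Prop} (ρ : α → ℕ)
    (h : ∀ a b, R a b → ρ b < ρ a) (l : List α) : ¬ Blocking R l := by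
  rintro ⟨h2, -, hc⟩
  have key : ∀ (m i : ℕ) (a : α), l[i]? = some a → ρ a ≤ m → False := by
    intro m
    induction m with
    | zero =>
      intro i a ha hm
      have hlt : (i + 1) % l.length < l.length := Nat.mod_lt _ (by omega)
      have := h _ _ (hc i a _ ha (List.getElem?_eq_getElem hlt))
      omega
    | succ m ih =>
      intro i a ha hm
      have hlt : (i + 1) % l.length < l.length := Nat.mod_lt _ (by omega)
      have := h _ _ (hc i a _ ha (List.getElem?_eq_getElem hlt))
      exact ih _ _ (List.getElem?_eq_getElem hlt) (by omega)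
  exact key _ 0 _ (List.getElem?_eq_getElem (by omega)) le_rfl

/-! ### Lists sorted by a key -/

/-- the numbers `< n` sorted by the key `f < K` -/
def byKey (n K : ℕ) (f : ℕ → ℕ) : List ℕ :=
  (List.range K).flatMap (fun k => (List.range n).filter (fun y => decide (f y = k)))

theorem mem_byKey {n K : ℕ} {f : ℕ → ℕ} (hf : ∀ y, f y < K) {y : ℕ} : y ∈ byKey n K f ↔ y < n := by
  unfold byKey
  simp only [List.mem_flatMap, List.mem_range, List.mem_filter, decide_eq_true_eq]
  constructor
  · rintro ⟨k, _, h, _⟩
    exact h
  · intro h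
    exact ⟨f y, hf y, h, rfl⟩

theorem pairwise_byKey (n K : ℕ) (f : ℕ → ℕ) :
    (byKey n K f).Pairwise (fun x y => f x < f y ∨ (f x = f y ∧ x < y)) := by
  unfold byKey
  rw [List.pairwise_flatMap]
  constructor
  · intro k _
    refine List.Pairwise.imp_of_mem ?_ ((List.pairwise_lt_range (n := n)).filter _)
    intro a b ha hb hab
    simp only [List.mem_filter, decide_eq_true_eq] at ha hb
    exact Or.inr ⟨ha.2.trans hb.2.symm, hab⟩
  · refine (List.pairwise_lt_range (n := K)).imp ?_
    intro a b hab x hx y hy
    simp only [List.mem_filter, decide_eq_true_eq] at hx hy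
    exact Or.inl (by rw [hx.2, hy.2]; exact hab)

theorem nodup_byKey (n K : ℕ) (f : ℕ → ℕ) : (byKey n K f).Nodup := by
  refine (pairwise_byKey n K f).imp ?_
  intro a b h hab
  subst hab
  rcases h with h | h
  · exact lt_irrefl _ h
  · exact lt_irrefl _ h.2

theorem byKey_perm {n K : ℕ} {f : ℕ → ℕ} (hf : ∀ y, f y < K) :
    (byKey n K f).Perm (List.range n) := by
  rw [List.perm_ext_iff_of_nodup (nodup_byKey n K f) List.nodup_range]
  intro a
  rw [mem_byKey hf, List.mem_range]

theorem pref_byKey {n K : ℕ} {f : ℕ → ℕ} (hf : ∀ y, f y < K) {x y : ℕ} (hx : x < n) (hy : y < n) :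
    Pref (byKey n K f) x y ↔ (f x < f y ∨ (f x = f y ∧ x < y)) := by
  have hp := pairwise_byKey n K f
  rw [List.pairwise_iff_getElem] at hp
  have hx' : x ∈ byKey n K f := (mem_byKey hf).2 hx
  have hy' : y ∈ byKey n K f := (mem_byKey hf).2 hy
  have ix := List.idxOf_lt_length_iff.2 hx'
  have iy := List.idxOf_lt_length_iff.2 hy'
  have gx : (byKey n K f)[(byKey n K f).idxOf x] = x := List.getElem_idxOf ix
  have gy : (byKey n K f)[(byKey n K f).idxOf y] = y := List.getElem_idxOf iy
  unfold Pref
  constructor
  · intro h
    have := hp _ _ ix iy h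
    rwa [gx, gy] at this
  · intro h
    by_contra hcon
    rcases Nat.lt_or_ge ((byKey n K f).idxOf y) ((byKey n K f).idxOf x) with h1 | h1
    · have := hp _ _ iy ix h1
      rw [gx, gy] at this
      omega
    · have h2 : (byKey n K f).idxOf x = (byKey n K f).idxOf y := by omega
      have h3 : x = y := by
        rw [← gx, ← gy]
        simp only [h2]
      subst h3
      omega

end Pool.Agent.X130.CES
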