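import Mathlib
import Pool.Agent.X130.CES.Defs
import Pool.Agent.X130.Col3

set_option autoImplicit false

/-!
# Coalition-exchange-stable matchings: the reduction from 3-colourability
-/

namespace Pool.Agent.X130.CES

open Pool.Agent.NPC Pool.Agent.H692R2

/-- local ranks of the women for the men -/
def mp (i j : ℕ) : ℕ := ([0, 1, 2, 3, 1, 3, 2, 0, 0, 2, 1, 3, 2, 1, 3, 0] : List ℕ).getD (4 * i + j) 0

/-- local ranks of the men for the women -/
def wp (i j : ℕ) : ℕ := ([1, 2, 3, 0, 1, 0, 3, 2, 0, 2, 1, 3, 3, 0, 2, 1] : List ℕ).getD (4 * i + j) 0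

/-- adjacency -/
def adj (E : List (ℕ × ℕ)) (u v : ℕ) : Bool := decide ((u, v) ∈ E) || decide ((v, u) ∈ E)

/-- the key of the woman `y` for the man `x` -/
def mkey (E : List (ℕ × ℕ)) (x y : ℕ) : ℕ :=
  if y / 4 = x / 4 then 2 * mp (x % 4) (y % 4)
  else if x % 4 = 0 ∧ y % 4 = 2 ∧ y / 12 = x / 12 ∧ y / 4 % 3 = (x / 4 + 1) % 3 then 3
  else if x % 4 = 1 ∧ y % 4 = 1 ∧ y / 4 % 3 = x / 4 % 3 ∧ adj E (x / 12) (y / 12) = true then 5
  else 8

/-- the key of the man `y` for the woman `x` -/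
def wkey (x y : ℕ) : ℕ := if y / 4 = x / 4 then wp (x % 4) (y % 4) else 4

/-- the number of men -/
def num (E : List (ℕ × ℕ)) : ℕ := 24 * E.length

/-- the reduction -/
def red (E : List (ℕ × ℕ)) : List (List ℕ) × List (List ℕ) :=
  ((List.range (num E)).map (fun x => byKey (num E) 9 (mkey E x)),
    (List.range (num E)).map (fun x => byKey (num E) 5 (wkey x)))

theorem range_poly {α : Type} [TEnc α] {E : α → List (ℕ × ℕ)} (h : NPC.Poly E) :
    NPC.Poly (fun a => List.range (num (E a))) := by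
  unfold num
  exact UPoly.range (UPoly.mul (UPoly.const 24) (UPoly.length h))

theorem byKey_poly {α : Type} [TEnc α] {E : α → List (ℕ × ℕ)} {K : ℕ} {f : α → ℕ → ℕ}
    (h : NPC.Poly E) (hf : NPC.Poly (fun x : α × ℕ => f x.1 x.2)) :
    NPC.Poly (fun a => byKey (num (E a)) K (f a)) := by
  unfold byKey
  refine NPC.Poly.flatMap (F := fun a k => (List.range (num (E a))).filter
    (fun y => decide (f a y = k))) (NPC.Poly.const _) ?_
  refine NPC.Poly.filter (p := fun (x : α × ℕ) y => decide (f x.1 y = x.2)) ?_ ?_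
  · exact range_poly (E := fun x : α × ℕ => E x.1) (h.comp (by fun_prop))
  · have h1 : NPC.Poly (fun x : (α × ℕ) × ℕ => f x.1.1 x.2) :=
      hf.comp (f := fun x : (α × ℕ) × ℕ => (x.1.1, x.2)) (by fun_prop)
    fun_prop

theorem red_poly : NPC.Poly red := by
  unfold red
  refine NPC.Poly.pair ?_ ?_
  · refine NPC.Poly.map (F := fun E x => byKey (num E) 9 (mkey E x)) (range_poly NPC.Poly.id) ?_
    refine byKey_poly (E := fun x : List (ℕ × ℕ) × ℕ => x.1) (f := fun x y => mkey x.1 x.2 y)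
      (by fun_prop) ?_
    unfold mkey mp adj
    fun_prop
  · refine NPC.Poly.map (F := fun E x => byKey (num E) 5 (wkey x)) (range_poly NPC.Poly.id) ?_
    refine byKey_poly (E := fun x : List (ℕ × ℕ) × ℕ => x.1) (f := fun x y => wkey x.2 y)
      (by fun_prop) ?_
    unfold wkey wp
    fun_prop

theorem mp_le : ∀ i < 4, ∀ j < 4, mp i j ≤ 3 := by decide
theorem wp_le : ∀ i < 4, ∀ j < 4, wp i j ≤ 3 := by decide

theorem mp_le' (x y : ℕ) : mp (x % 4) (y % 4) ≤ 3 :=
  mp_le _ (Nat.mod_lt _ (by omega)) _ (Nat.mod_lt _ (by omega))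

theorem wp_le' (x y : ℕ) : wp (x % 4) (y % 4) ≤ 3 :=
  wp_le _ (Nat.mod_lt _ (by omega)) _ (Nat.mod_lt _ (by omega))

theorem mkey_lt (E : List (ℕ × ℕ)) (x y : ℕ) : mkey E x y < 9 := by
  have := mp_le' x y
  unfold mkey
  split_ifs <;> omega

theorem wkey_lt (x y : ℕ) : wkey x y < 5 := by
  have := wp_le' x y
  unfold wkey
  split_ifs <;> omega

variable {E : List (ℕ × ℕ)}

theorem isSM_red : IsSM (red E) := by
  have h : (red E).1.length = num E := by simp [red]
  refine ⟨by simp [red], ?_, ?_⟩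
  · intro l hl
    rw [h]
    obtain ⟨x, _, rfl⟩ := List.mem_map.1 hl
    exact byKey_perm (mkey_lt E x)
  · intro l hl
    rw [h]
    obtain ⟨x, _, rfl⟩ := List.mem_map.1 hl
    exact byKey_perm (wkey_lt x)

theorem hasCES_red : HasCES (red E) ↔ ∃ M : Equiv.Perm (Fin (num E)), CES (red E) M := by
  unfold HasCES
  rw [exists_ces_iff (n := num E) (by simp [red])]
  exact ⟨fun h => h.2, fun h => ⟨isSM_red, h⟩⟩

theorem menEnvy_iff {M : Equiv.Perm (Fin (num E))} {a b : Fin (num E)} :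
    menEnvy (red E) M a b ↔ (mkey E a (M b) < mkey E a (M a) ∨
      (mkey E a (M b) = mkey E a (M a) ∧ (M b : ℕ) < M a)) := by
  unfold menEnvy
  have h : (red E).1.getD a [] = byKey (num E) 9 (mkey E a) := by
    simp [red, List.getD_eq_getElem?_getD]
  rw [h]
  exact pref_byKey (mkey_lt E a) (M b).2 (M a).2

theorem womenEnvy_iff {M : Equiv.Perm (Fin (num E))} {a b : Fin (num E)} :
    womenEnvy (red E) M a b ↔ (wkey a (M.symm b) < wkey a (M.symm a) ∨
      (wkey a (M.symm b) = wkey a (M.symm a) ∧ (M.symm b : ℕ) < M.symm a)) := by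
  unfold womenEnvy
  have h : (red E).2.getD a [] = byKey (num E) 5 (wkey a) := by
    simp [red, List.getD_eq_getElem?_getD]
  rw [h]
  exact pref_byKey (wkey_lt a) (M.symm b).2 (M.symm a).2

end Pool.Agent.X130.CES
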