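import Mathlib
import Pool.Agent.X130.CES.Red

set_option autoImplicit false

/-!
# Coalition-exchange-stable matchings: correctness and hardness
-/

namespace Pool.Agent.X130.CES

open Pool.Agent.NPC Pool.Agent.H692R2

variable {E : List (ℕ × ℕ)}

theorem mkey_same {g i j : ℕ} (hi : i < 4) (hj : j < 4) :
    mkey E (4 * g + i) (4 * g + j) = 2 * mp i j := by
  unfold mkey
  rw [if_pos (by omega), show (4 * g + i) % 4 = i by omega, show (4 * g + j) % 4 = j by omega]

theorem wkey_same {g i j : ℕ} (hi : i < 4) (hj : j < 4) :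
    wkey (4 * g + i) (4 * g + j) = wp i j := by
  unfold wkey
  rw [if_pos (by omega), show (4 * g + i) % 4 = i by omega, show (4 * g + j) % 4 = j by omega]

section bwd
variable {M : Equiv.Perm (Fin (num E))}

theorem closed (h : CES (red E) M) (a : Fin (num E)) : (M a : ℕ) / 4 = a / 4 := by
  by_contra hcon
  obtain ⟨w, hw, hsink⟩ := exists_sink (R := womenEnvy (red E) M)
    (fun a h => by rw [womenEnvy_iff] at h; omega) h.2
    (C := {w | (M.symm w : ℕ) / 4 ≠ w / 4}) ⟨M a, by
      simp only [Set.mem_setOf_eq, Equiv.symm_apply_apply]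
      exact fun h => hcon h.symm⟩
  simp only [Set.mem_setOf_eq] at hw hsink
  have hex : ∃ m : Fin (num E), (m : ℕ) / 4 = w / 4 ∧ (M m : ℕ) / 4 ≠ w / 4 := by
    by_contra hno
    push Not at hno
    have hsub : (Finset.univ.filter (fun m : Fin (num E) => (m : ℕ) / 4 = w / 4)).image M ⊆
        Finset.univ.filter (fun m : Fin (num E) => (m : ℕ) / 4 = w / 4) := by
      intro x hx
      obtain ⟨m, hm, rfl⟩ := Finset.mem_image.1 hx
      rw [Finset.mem_filter] at hm ⊢
      exact ⟨Finset.mem_univ _, hno m hm.2⟩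
    have heq := Finset.eq_of_subset_of_card_le hsub
      (by rw [Finset.card_image_of_injective _ M.injective])
    have hmem : w ∈ (Finset.univ.filter (fun m : Fin (num E) => (m : ℕ) / 4 = w / 4)).image M := by
      rw [heq, Finset.mem_filter]
      exact ⟨Finset.mem_univ _, rfl⟩
    obtain ⟨m, hm, hmw⟩ := Finset.mem_image.1 hmem
    rw [Finset.mem_filter] at hm
    apply hw
    rw [← hmw, Equiv.symm_apply_apply, hm.2, hmw]
  obtain ⟨m, hm1, hm2⟩ := hex
  refine hsink (M m) ?_ ?_
  · rw [Equiv.symm_apply_apply, hm1]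
    exact fun h => hm2 h.symm
  · rw [womenEnvy_iff, Equiv.symm_apply_apply]
    left
    have h1 := wp_le' w m
    unfold wkey
    rw [if_pos hm1, if_neg hw]
    omega

theorem local_dec : ∀ σ : Fin 4 → Fin 4, Function.Injective σ →
    (∃ i j : Fin 4, mp i (σ j) < mp i (σ i) ∧ mp j (σ i) < mp j (σ j)) ∨
    (∃ i j : Fin 4, wp (σ i) j < wp (σ i) i ∧ wp (σ j) i < wp (σ j) j) ∨
    σ 1 = 1 ∨ σ 0 = 2 := by
  decide +kernel

/-- the element `i` of the block `g` -/
def el {g : ℕ} (hg : 4 * g + 3 < num E) (i : Fin 4) : Fin (num E) := ⟨4 * g + i, by omega⟩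

theorem block_state (h : CES (red E) M) {g : ℕ} (hg : 4 * g + 3 < num E) :
    (M (el hg 1) : ℕ) = 4 * g + 1 ∨ (M (el hg 0) : ℕ) = 4 * g + 2 := by
  have hM : ∀ i, (M (el hg i) : ℕ) / 4 = g := by
    intro i
    rw [closed h]
    unfold el
    simp only
    omega
  let σ : Fin 4 → Fin 4 := fun i => ⟨(M (el hg i) : ℕ) % 4, Nat.mod_lt _ (by omega)⟩
  have hσ : ∀ i, (M (el hg i) : ℕ) = 4 * g + σ i := by
    intro i
    have := hM i
    simp only [σ]
    omega
  have hinj : Function.Injective σ := by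
    intro i j hij
    have h1 : (M (el hg i) : ℕ) = M (el hg j) := by rw [hσ, hσ, hij]
    have h2 := M.injective (Fin.ext h1)
    have h3 := congrArg Fin.val h2
    unfold el at h3
    simp only at h3
    exact Fin.ext (by omega)
  have hel : ∀ i, ((el hg i : Fin (num E)) : ℕ) = 4 * g + i := fun i => rfl
  rcases local_dec σ hinj with ⟨i, j, h1, h2⟩ | ⟨i, j, h1, h2⟩ | h1 | h1
  · exfalso
    refine h.1 _ (blocking2 (a := el hg i) (b := el hg j) ?_ ?_ ?_)
    · intro he
      have h3 := congrArg Fin.val he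
      rw [hel, hel] at h3
      have : i = j := Fin.ext (by omega)
      subst this
      omega
    · rw [menEnvy_iff, hσ, hσ, hel, mkey_same i.2 (σ j).2, mkey_same i.2 (σ i).2]
      omega
    · rw [menEnvy_iff, hσ, hσ, hel, mkey_same j.2 (σ j).2, mkey_same j.2 (σ i).2]
      omega
  · exfalso
    refine h.2 _ (blocking2 (a := M (el hg i)) (b := M (el hg j)) ?_ ?_ ?_)
    · intro he
      have h3 := congrArg Fin.val (M.injective he)
      rw [hel, hel] at h3
      have : i = j := Fin.ext (by omega)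
      subst this
      omega
    · rw [womenEnvy_iff, Equiv.symm_apply_apply, Equiv.symm_apply_apply, hσ, hel, hel,
        wkey_same (σ i).2 j.2, wkey_same (σ i).2 i.2]
      omega
    · rw [womenEnvy_iff, Equiv.symm_apply_apply, Equiv.symm_apply_apply, hσ, hel, hel,
        wkey_same (σ j).2 j.2, wkey_same (σ j).2 i.2]
      omega
  · left
    rw [hσ, h1]
    rfl
  · right
    rw [hσ, h1]
    rfl

theorem bwd (hE : Loopless E ∧ SmallE E) (h : CES (red E) M) : Col 3 E := by
  classical
  have hT : ∀ v, v < 2 * E.length → ∃ c : Fin 3, ∀ x : Fin (num E), (x : ℕ) = 12 * v + 4 * c + 1 →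
      (M x : ℕ) = 12 * v + 4 * c + 1 := by
    intro v hv
    have hn : num E = 24 * E.length := rfl
    by_contra hcon
    push Not at hcon
    have hF : ∀ (c : Fin 3) (x : Fin (num E)), (x : ℕ) = 12 * v + 4 * c →
        (M x : ℕ) = 12 * v + 4 * c + 2 := by
      intro c x hx
      obtain ⟨y, hy, hMy⟩ := hcon c
      have hg : 4 * (3 * v + (c : ℕ)) + 3 < num E := by omega
      have e1 : el hg 1 = y := Fin.ext (by
        show 4 * (3 * v + (c : ℕ)) + 1 = _
        omega)
      have e0 : el hg 0 = x := Fin.ext (by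
        show 4 * (3 * v + (c : ℕ)) + 0 = _
        omega)
      rcases block_state h hg with h1 | h1
      · rw [e1] at h1
        omega
      · rw [e0] at h1
        omega
    have m0 := hF 0 ⟨12 * v, by omega⟩ (by simp)
    have m1 := hF 1 ⟨12 * v + 4, by omega⟩ (by simp)
    have m2 := hF 2 ⟨12 * v + 8, by omega⟩ (by simp)
    have c0 : ((0 : Fin 3) : ℕ) = 0 := rfl
    have c1 : ((1 : Fin 3) : ℕ) = 1 := rfl
    have c2 : ((2 : Fin 3) : ℕ) = 2 := rfl
    rw [c0] at m0
    rw [c1] at m1
    rw [c2] at m2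
    have k0 : ∀ w, mkey E (4 * w) (4 * w + 2) = 4 := fun w => by
      have := mkey_same (E := E) (g := w) (i := 0) (j := 2) (by omega) (by omega)
      rw [Nat.add_zero] at this
      rw [this]
      decide
    have k1 : mkey E (12 * v) (12 * v + 6) = 3 := by
      unfold mkey
      rw [if_neg (by omega), if_pos (by omega)]
    have k2 : mkey E (12 * v + 4) (12 * v + 10) = 3 := by
      unfold mkey
      rw [if_neg (by omega), if_pos (by omega)]
    have k3 : mkey E (12 * v + 8) (12 * v + 2) = 3 := by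
      unfold mkey
      rw [if_neg (by omega), if_pos (by omega)]
    have l0 := k0 (3 * v)
    have l1 := k0 (3 * v + 1)
    have l2 := k0 (3 * v + 2)
    rw [show 4 * (3 * v) = 12 * v by ring] at l0
    rw [show 4 * (3 * v + 1) = 12 * v + 4 by ring] at l1
    rw [show 4 * (3 * v + 2) = 12 * v + 8 by ring] at l2
    refine h.1 _ (blocking3 (a := (⟨12 * v, by omega⟩ : Fin (num E)))
      (b := ⟨12 * v + 4, by omega⟩) (c := ⟨12 * v + 8, by omega⟩) ?_ ?_ ?_ ?_ ?_ ?_)
    · intro he
      have := congrArg Fin.val he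
      simp only at this
      omega
    · intro he
      have := congrArg Fin.val he
      simp only at this
      omega
    · intro he
      have := congrArg Fin.val he
      simp only at this
      omega
    · rw [menEnvy_iff, m0, m1]
      left
      show mkey E (12 * v) (12 * v + 4 * 1 + 2) < mkey E (12 * v) (12 * v + 4 * 0 + 2)
      rw [show 12 * v + 4 * 1 + 2 = 12 * v + 6 by ring, show 12 * v + 4 * 0 + 2 = 12 * v + 2 by ring,
        k1, l0]
      omega
    · rw [menEnvy_iff, m1, m2]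
      left
      show mkey E (12 * v + 4) (12 * v + 4 * 2 + 2) < mkey E (12 * v + 4) (12 * v + 4 * 1 + 2)
      rw [show 12 * v + 4 * 2 + 2 = 12 * v + 10 by ring,
        show 12 * v + 4 * 1 + 2 = 12 * v + 4 + 2 by ring, k2, l1]
      omega
    · rw [menEnvy_iff, m2, m0]
      left
      show mkey E (12 * v + 8) (12 * v + 4 * 0 + 2) < mkey E (12 * v + 8) (12 * v + 4 * 2 + 2)
      rw [show 12 * v + 4 * 0 + 2 = 12 * v + 2 by ring,
        show 12 * v + 4 * 2 + 2 = 12 * v + 8 + 2 by ring, k3, l2]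
      omega
  have hT' : ∀ v, ∃ c : Fin 3, v < 2 * E.length → ∀ x : Fin (num E),
      (x : ℕ) = 12 * v + 4 * c + 1 → (M x : ℕ) = 12 * v + 4 * c + 1 := by
    intro v
    by_cases hv : v < 2 * E.length
    · obtain ⟨c, hc⟩ := hT v hv
      exact ⟨c, fun _ => hc⟩
    · exact ⟨0, fun h => absurd h hv⟩
  choose χ hχ using hT'
  refine ⟨χ, ?_⟩
  rintro ⟨u, v⟩ he heq
  have hn : num E = 24 * E.length := rfl
  have hne : u ≠ v := hE.1 _ he
  obtain ⟨hu, hv⟩ := hE.2 _ he
  simp only at hu hv heq
  have hc := (χ u).2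
  have mu := hχ u hu ⟨12 * u + 4 * χ u + 1, by omega⟩ rfl
  have mv : (M ⟨12 * v + 4 * χ u + 1, by omega⟩ : ℕ) = 12 * v + 4 * χ u + 1 := by
    have h1 := hχ v hv ⟨12 * v + 4 * χ u + 1, by omega⟩ (by
      show 12 * v + 4 * (χ u : ℕ) + 1 = _
      rw [heq])
    have h2 := congrArg Fin.val heq
    omega
  have k6 : ∀ w, mkey E (4 * w + 1) (4 * w + 1) = 6 := fun w => by
    exact mkey_same (by omega) (by omega)
  have kuv : ∀ a b, a ≠ b → adj E a b = true → mkey E (12 * a + 4 * χ u + 1) (12 * b + 4 * χ u + 1) = 5 := by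
    intro a b hab hadj
    have e1 : (12 * a + 4 * (χ u : ℕ) + 1) / 12 = a := by omega
    have e2 : (12 * b + 4 * (χ u : ℕ) + 1) / 12 = b := by omega
    have hh : adj E ((12 * a + 4 * (χ u : ℕ) + 1) / 12) ((12 * b + 4 * (χ u : ℕ) + 1) / 12) =
        true := by rw [e1, e2]; exact hadj
    unfold mkey
    rw [if_neg (by omega), if_neg (by omega), if_pos ⟨by omega, by omega, by omega, hh⟩]
  have h6 : ∀ a, mkey E (12 * a + 4 * χ u + 1) (12 * a + 4 * χ u + 1) = 6 := by
    intro a
    rw [show 12 * a + 4 * (χ u : ℕ) + 1 = 4 * (3 * a + χ u) + 1 by ring]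
    exact k6 _
  refine h.1 _ (blocking2 (a := (⟨12 * u + 4 * χ u + 1, by omega⟩ : Fin (num E)))
    (b := ⟨12 * v + 4 * χ u + 1, by omega⟩) ?_ ?_ ?_)
  · intro hh
    have := congrArg Fin.val hh
    simp only at this
    omega
  · rw [menEnvy_iff, mu, mv]
    left
    show mkey E (12 * u + 4 * χ u + 1) _ < mkey E (12 * u + 4 * χ u + 1) _
    rw [kuv u v hne (by unfold adj; simp [he]), h6]
    omega
  · rw [menEnvy_iff, mu, mv]
    left
    show mkey E (12 * v + 4 * χ u + 1) _ < mkey E (12 * v + 4 * χ u + 1) _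
    rw [kuv v u hne.symm (by unfold adj; simp [he]), h6]
    omega

end bwd

section fwd
variable (χ : ℕ → Fin 3)

/-- the state of the block of `x` (`0`: the colour is chosen) -/
def st (x : ℕ) : ℕ := (x / 4 + 3 - (χ (x / 12) : ℕ)) % 3

/-- the local matching -/
def lm (s j : ℕ) : ℕ := if s = 0 then j else (j + 2) % 4

/-- the matching -/
def mt (x : ℕ) : ℕ := 4 * (x / 4) + lm (st χ x) (x % 4)

/-- ranks of the men -/
def rk (s i : ℕ) : ℕ := ([0, 2, 1, 0, 3, 0, 0, 1, 2, 0, 0, 1] : List ℕ).getD (4 * s + i) 0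

/-- ranks of the women -/
def wrk (s i : ℕ) : ℕ := ([2, 0, 3, 1, 2, 1, 0, 0, 2, 1, 0, 0] : List ℕ).getD (4 * s + i) 0

end fwd

section fwd2
variable {χ : ℕ → Fin 3}

theorem st_lt (x : ℕ) : st χ x < 3 := Nat.mod_lt _ (by omega)

theorem lm_lt {s j : ℕ} (hj : j < 4) : lm s j < 4 := by
  unfold lm
  split_ifs <;> omega

theorem mt_div (x : ℕ) : mt χ x / 4 = x / 4 := by
  have := lm_lt (s := st χ x) (j := x % 4) (Nat.mod_lt _ (by omega))
  unfold mt
  omega

theorem mt_mod (x : ℕ) : mt χ x % 4 = lm (st χ x) (x % 4) := by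
  have := lm_lt (s := st χ x) (j := x % 4) (Nat.mod_lt _ (by omega))
  unfold mt
  omega

theorem st_congr {x y : ℕ} (h : x / 4 = y / 4) : st χ x = st χ y := by
  have h2 : x / 12 = y / 12 := by omega
  unfold st
  rw [h, h2]

theorem mt_mt (x : ℕ) : mt χ (mt χ x) = x := by
  have h1 := mt_div (χ := χ) x
  have h2 := mt_mod (χ := χ) x
  have h3 := st_congr (χ := χ) h1
  have h4 : mt χ (mt χ x) = 4 * (mt χ x / 4) + lm (st χ (mt χ x)) (mt χ x % 4) := rfl
  rw [h4, h1, h2, h3]
  unfold lm
  split_ifs <;> omega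

theorem mt_lt {x : ℕ} (hx : x < num E) : mt χ x < num E := by
  have := mt_div (χ := χ) x
  unfold num at *
  omega

/-- the matching given by a colouring -/
def mtP (E : List (ℕ × ℕ)) (χ : ℕ → Fin 3) : Equiv.Perm (Fin (num E)) where
  toFun x := ⟨mt χ x, mt_lt x.2⟩
  invFun x := ⟨mt χ x, mt_lt x.2⟩
  left_inv x := Fin.ext (mt_mt _)
  right_inv x := Fin.ext (mt_mt _)

theorem dec1 : ∀ s < 3, ∀ i < 4, ∀ j < 4, mp i (lm s j) < mp i (lm s i) → rk s j < rk s i := by
  decide +kernel

theorem dec2 : ∀ s < 3, ∀ i < 4, ∀ j < 4, wp i (lm s j) < wp i (lm s i) → wrk s j < wrk s i := by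
  decide +kernel

theorem dec3 : ∀ i < 4, ∀ j < 4, ∀ k < 4, mp i j = mp i k → j = k := by decide +kernel

theorem dec4 : ∀ i < 4, ∀ j < 4, ∀ k < 4, wp i j = wp i k → j = k := by decide +kernel

theorem dec5 : ∀ s < 3, 3 < 2 * mp 0 (lm s 0) → s ≠ 0 := by decide +kernel

theorem dec6 : ∀ s < 3, 5 < 2 * mp 1 (lm s 1) → s = 0 := by decide +kernel

theorem mkey_own (a : ℕ) : mkey E a (mt χ a) = 2 * mp (a % 4) (lm (st χ a) (a % 4)) := by
  unfold mkey
  rw [if_pos (mt_div a), mt_mod]

theorem wkey_own (a : ℕ) : wkey a (mt χ a) = wp (a % 4) (lm (st χ a) (a % 4)) := by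
  unfold wkey
  rw [if_pos (mt_div a), mt_mod]

theorem m4 (a : ℕ) : a % 4 < 4 := Nat.mod_lt _ (by omega)

theorem men_rank (hE : ∀ e ∈ E, χ e.1 ≠ χ e.2) {a b : ℕ}
    (h : mkey E a (mt χ b) < mkey E a (mt χ a) ∨
      (mkey E a (mt χ b) = mkey E a (mt χ a) ∧ mt χ b < mt χ a)) :
    rk (st χ b) (b % 4) < rk (st χ a) (a % 4) := by
  have hb1 := mt_div (χ := χ) b
  have hb2 := mt_mod (χ := χ) b
  have hb3 := lm_lt (s := st χ b) (m4 b)
  have ha3 := lm_lt (s := st χ a) (m4 a)
  have hown := mkey_own (E := E) (χ := χ) a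
  have hown' := mp_le (a % 4) (m4 a) _ ha3
  have sa := st_lt (χ := χ) a
  have sb := st_lt (χ := χ) b
  by_cases hblk : mt χ b / 4 = a / 4
  · have hst : st χ b = st χ a := st_congr (by omega)
    have hk : mkey E a (mt χ b) = 2 * mp (a % 4) (lm (st χ a) (b % 4)) := by
      unfold mkey
      rw [if_pos hblk, hb2, hst]
    rw [hk, hown] at h
    rw [hst]
    have hb3' := lm_lt (s := st χ a) (m4 b)
    rcases h with h | ⟨h, hlt⟩
    · exact dec1 _ sa _ (m4 a) _ (m4 b) (by omega)
    · exfalso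
      have h1 := dec3 _ (m4 a) _ hb3' _ ha3 (by omega)
      have ha1 := mt_div (χ := χ) a
      have ha2 := mt_mod (χ := χ) a
      rw [hst, h1, ← ha2] at hb2
      omega
  · rw [hown] at h
    have hk : mkey E a (mt χ b) = if a % 4 = 0 ∧ mt χ b % 4 = 2 ∧ mt χ b / 12 = a / 12 ∧
        mt χ b / 4 % 3 = (a / 4 + 1) % 3 then 3
      else if a % 4 = 1 ∧ mt χ b % 4 = 1 ∧ mt χ b / 4 % 3 = a / 4 % 3 ∧
        adj E (a / 12) (mt χ b / 12) = true then 5 else 8 := by
      unfold mkey
      rw [if_neg hblk]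
    rw [hk] at h
    split_ifs at h with h1 h2
    · obtain ⟨c1, c2, c3, c4⟩ := h1
      rw [c1] at h ⊢
      have hs : st χ a ≠ 0 := dec5 _ sa (by omega)
      have hsb : st χ b = (st χ a + 1) % 3 := by
        have e1 : b / 12 = a / 12 := by omega
        have := (χ (a / 12)).2
        unfold st
        rw [e1, ← hb1]
        omega
      rw [hb2] at c2
      have hcase : st χ a = 1 ∨ st χ a = 2 := by omega
      have hb4 := m4 b
      rcases hcase with hc | hc
      · have hsb' : st χ b = 2 := by omega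
        rw [hsb'] at c2 ⊢
        have : b % 4 = 0 := by
          unfold lm at c2
          rw [if_neg (by omega)] at c2
          omega
        rw [this, hc]
        decide
      · have hsb' : st χ b = 0 := by omega
        rw [hsb'] at c2 ⊢
        have : b % 4 = 2 := by
          unfold lm at c2
          rwa [if_pos rfl] at c2
        rw [this, hc]
        decide
    · obtain ⟨c1, c2, c3, c4⟩ := h2
      rw [c1] at h ⊢
      have hs : st χ a = 0 := dec6 _ sa (by omega)
      have hadj : χ (a / 12) ≠ χ (b / 12) := by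
        have e1 : mt χ b / 12 = b / 12 := by omega
        rw [e1] at c4
        unfold adj at c4
        rw [Bool.or_eq_true, decide_eq_true_eq, decide_eq_true_eq] at c4
        rcases c4 with c4 | c4
        · exact hE _ c4
        · exact (hE _ c4).symm
      have hsb : st χ b ≠ 0 := by
        intro h0
        apply hadj
        have g1 := (χ (a / 12)).2
        have g2 := (χ (b / 12)).2
        apply Fin.ext
        unfold st at hs h0
        omega
      rw [hb2] at c2
      have hb4 := m4 b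
      have h3 : b % 4 = 3 := by
        unfold lm at c2
        rw [if_neg hsb] at c2
        omega
      rw [h3, hs]
      have hcase : st χ b = 1 ∨ st χ b = 2 := by omega
      rcases hcase with hc | hc
      · rw [hc]
        decide
      · rw [hc]
        decide
    · omega

theorem women_rank {a b : ℕ}
    (h : wkey a (mt χ b) < wkey a (mt χ a) ∨
      (wkey a (mt χ b) = wkey a (mt χ a) ∧ mt χ b < mt χ a)) :
    wrk (st χ b) (b % 4) < wrk (st χ a) (a % 4) := by
  have hb1 := mt_div (χ := χ) b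
  have hb2 := mt_mod (χ := χ) b
  have hb3 := lm_lt (s := st χ b) (m4 b)
  have ha3 := lm_lt (s := st χ a) (m4 a)
  have hown := wkey_own (χ := χ) a
  have hown' := wp_le (a % 4) (m4 a) _ ha3
  have sa := st_lt (χ := χ) a
  by_cases hblk : mt χ b / 4 = a / 4
  · have hst : st χ b = st χ a := st_congr (by omega)
    have hk : wkey a (mt χ b) = wp (a % 4) (lm (st χ a) (b % 4)) := by
      unfold wkey
      rw [if_pos hblk, hb2, hst]
    rw [hk, hown] at h
    rw [hst]
    have hb3' := lm_lt (s := st χ a) (m4 b)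
    rcases h with h | ⟨h, hlt⟩
    · exact dec2 _ sa _ (m4 a) _ (m4 b) h
    · exfalso
      have h1 := dec4 _ (m4 a) _ hb3' _ ha3 h
      have ha1 := mt_div (χ := χ) a
      have ha2 := mt_mod (χ := χ) a
      rw [hst, h1, ← ha2] at hb2
      omega
  · exfalso
    rw [hown] at h
    have hk : wkey a (mt χ b) = 4 := by
      unfold wkey
      rw [if_neg hblk]
    rw [hk] at h
    omega

theorem fwd (h : Col 3 E) : ∃ M : Equiv.Perm (Fin (num E)), CES (red E) M := by
  obtain ⟨χ, hχ⟩ := h
  refine ⟨mtP E χ, no_blocking_of_rank (fun a => rk (st χ a) ((a : ℕ) % 4)) ?_,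
    no_blocking_of_rank (fun a => wrk (st χ a) ((a : ℕ) % 4)) ?_⟩
  · intro a b hab
    rw [menEnvy_iff] at hab
    exact men_rank hχ hab
  · intro a b hab
    rw [womenEnvy_iff] at hab
    exact women_rank hab

end fwd2

/-- Deciding the existence of a coalition-exchange-stable matching is NP-hard. -/
theorem hard : NPHardP HasCES := by
  refine (hardPr_col3s.trans (Pr' := fun _ => True) red_poly (fun _ _ => trivial)
    ?_).toHardI.toNPHardP
  intro E hE
  rw [hasCES_red]
  exact ⟨fwd, fun ⟨M, hM⟩ => bwd hE hM⟩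

end Pool.Agent.X130.CES
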